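import Mathlib
import Pool.Agent.Helper71.Disc

/-!
# Almost all multiples of the powers of e are equidistributed modulo one

For every positive ε, in every interval of at least exp(ε N) consecutive frequencies all but a
power saving proportion of the frequencies k have the property that the first N terms of
k e^n + P(n), along any prescribed set of n, have discrepancy at most N^(-c), for all real
polynomials P of bounded degree at once.
-/

namespace Pool.Agent.Results.MP_9056e9_nt.AlmostAllMultiples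

open Pool.Agent.Helper71.Weyl Polynomial Finset

theorem result (s : ℕ) (A ε : ℝ) (hε : 0 < ε) :
    ∃ c : ℝ, 0 < c ∧ ∃ N₀ : ℕ, ∀ N : ℕ, N₀ ≤ N → ∀ K : ℕ, Real.exp (ε * N) ≤ K →
      ∀ ξ : ℝ, Real.exp (-(ε / 4 * N)) ≤ |ξ| → |ξ| ≤ Real.exp (A * N) → ∀ θ : ℝ,
      ∀ S : Finset ℕ, S ⊆ Finset.Icc 1 N →
      ({k : ℕ | 1 ≤ k ∧ k ≤ K ∧ ¬ ∀ P : ℝ[X], P.natDegree ≤ s → ∀ α β : ℝ,
        0 ≤ α → α < β → β ≤ 1 →
        |((S.filter (fun n : ℕ =>
            α ≤ Int.fract ((k + θ) * ξ * Real.exp n + P.eval (n : ℝ)) ∧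
            Int.fract ((k + θ) * ξ * Real.exp n + P.eval (n : ℝ)) < β)).card : ℝ) -
          (β - α) * S.card| ≤ (N : ℝ) ^ (1 - c)}.ncard : ℝ) ≤ K * (N : ℝ) ^ (-c) := by
  classical
  obtain ⟨c, C, hc0, hc1, hC, hmain⟩ := majorant s (A + 1) ε hε
  have hZ := Z_nonneg
  have hcast : Filter.Tendsto (fun N : ℕ => (N : ℝ) ^ (c / 32)) Filter.atTop Filter.atTop :=
    (tendsto_rpow_atTop (by positivity)).comp tendsto_natCast_atTop_atTop
  have hev := (hcast.eventually_ge_atTop (max C (2 + 2 * Z))).and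
    (Filter.eventually_ge_atTop 1)
  obtain ⟨N₀, hN₀⟩ := Filter.eventually_atTop.mp hev
  refine ⟨c / 32, by positivity, N₀, ?_⟩
  intro N hN K hK ξ hξ1 hξ2 θ S hS
  obtain ⟨hbig, hNone⟩ := hN₀ N hN
  have hN1 : (1 : ℝ) ≤ N := by exact_mod_cast hNone
  have hN0 : (0 : ℝ) < N := by linarith
  have hCN : C ≤ (N : ℝ) ^ (c / 32) := le_trans (le_max_left _ _) hbig
  have hZN : 2 + 2 * Z ≤ (N : ℝ) ^ (c / 32) := le_trans (le_max_right _ _) hbig
  set L : ℝ := (N : ℝ) ^ (c / 4) with hL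
  set κ : ℝ := (N : ℝ) ^ (-(c / 8)) with hκ
  have hκ0 : 0 < κ := by positivity
  have hL1 : 1 ≤ L := Real.one_le_rpow hN1 (by positivity)
  have hκL : κ ^ 2 * L = 1 := by
    rw [hκ, hL, ← Real.rpow_natCast, ← Real.rpow_mul hN0.le, ← Real.rpow_add hN0]
    have : -(c / 8) * ((2 : ℕ) : ℝ) + c / 4 = 0 := by push_cast; ring
    rw [this, Real.rpow_zero]
  have hLN : L ≤ Real.exp (1 * N) := by
    have h1 : L ≤ (N : ℝ) ^ (1 : ℝ) := Real.rpow_le_rpow_of_exponent_le hN1 (by linarith)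
    rw [Real.rpow_one] at h1
    have h2 := Real.add_one_le_exp (N : ℝ)
    rw [one_mul]
    linarith
  set a : ℕ → ℂ := fun n => if n ∈ S then 1 else 0 with ha
  have ha1 : ∀ n, ‖a n‖ ≤ 1 := by
    intro n
    rw [ha]
    dsimp only
    split_ifs <;> simp
  have hSN : (S.card : ℝ) ≤ N := by
    have := Finset.card_le_card hS
    rw [Nat.card_Icc, Nat.add_sub_cancel] at this
    exact_mod_cast this
  -- the majorants
  have hmaj : ∀ h : ℕ, 1 ≤ h → (h : ℝ) ≤ L → ∃ t : ℕ → ℝ, (∀ k, 0 ≤ t k) ∧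
      (∀ (k : ℕ) (P : ℝ[X]), P.natDegree ≤ s →
        ‖∑ n ∈ Icc 1 N, a n * e ((k + θ) * (h * ξ * Real.exp n) + P.eval (n : ℝ))‖ ≤ t k) ∧
      ∑ k ∈ Icc 1 K, (t k) ^ 2 ≤ C * K * (N : ℝ) ^ (2 - c) := by
    intro h h1 h2
    have hh1 : (1 : ℝ) ≤ h := by exact_mod_cast h1
    apply hmain N K hNone hK (h * ξ) _ _ θ a ha1
    · rw [abs_mul, abs_of_pos (by linarith : (0 : ℝ) < h)]
      calc Real.exp (-(ε / 4 * N)) ≤ |ξ| := hξ1
        _ ≤ h * |ξ| := le_mul_of_one_le_left (abs_nonneg _) hh1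
    · rw [abs_mul, abs_of_pos (by linarith : (0 : ℝ) < h)]
      calc h * |ξ| ≤ Real.exp (1 * N) * Real.exp (A * N) :=
            mul_le_mul (h2.trans hLN) hξ2 (abs_nonneg _) (Real.exp_pos _).le
        _ = Real.exp ((A + 1) * N) := by rw [← Real.exp_add]; congr 1; ring
  choose! t ht0 htb hts using hmaj
  -- the bad sets
  set Bad : ℕ → Finset ℕ := fun h => (Icc 1 K).filter (fun k => κ * N < t h k) with hBad
  have hbadcard : ∀ h : ℕ, 1 ≤ h → (h : ℝ) ≤ L →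
      ((Bad h).card : ℝ) ≤ C * K * (N : ℝ) ^ (-(3 * c / 4)) := by
    intro h h1 h2
    have h3 : ((Bad h).card : ℝ) * (κ * N) ^ 2 ≤ C * K * (N : ℝ) ^ (2 - c) := by
      calc ((Bad h).card : ℝ) * (κ * N) ^ 2 = ∑ k ∈ Bad h, (κ * N) ^ 2 := by
            rw [Finset.sum_const, nsmul_eq_mul]
        _ ≤ ∑ k ∈ Bad h, (t h k) ^ 2 := by
            apply Finset.sum_le_sum
            intro k hk
            rw [hBad, Finset.mem_filter] at hk
            exact pow_le_pow_left₀ (by positivity) hk.2.le 2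
        _ ≤ ∑ k ∈ Icc 1 K, (t h k) ^ 2 := by
            apply Finset.sum_le_sum_of_subset_of_nonneg (Finset.filter_subset _ _)
            intro k _ _
            positivity
        _ ≤ C * K * (N : ℝ) ^ (2 - c) := hts h h1 h2
    have h4 : (κ * N) ^ 2 = (N : ℝ) ^ (2 - c / 4) := by
      rw [mul_pow, hκ, ← Real.rpow_natCast ((N : ℝ) ^ (-(c / 8))) 2, ← Real.rpow_mul hN0.le,
        ← Real.rpow_natCast (N : ℝ) 2, ← Real.rpow_add hN0]
      congr 1
      push_cast; ring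
    have h5 : C * K * (N : ℝ) ^ (2 - c) =
        (C * K * (N : ℝ) ^ (-(3 * c / 4))) * (κ * N) ^ 2 := by
      rw [h4, mul_assoc (C * (K : ℝ)), ← Real.rpow_add hN0]
      congr 2
      ring
    rw [h5] at h3
    exact le_of_mul_le_mul_right h3 (by positivity)
  -- the union of the bad sets
  set U : Finset ℕ := (Icc 1 ⌊L⌋₊).biUnion Bad with hU
  have hUcard : (U.card : ℝ) ≤ K * (N : ℝ) ^ (-(c / 32)) := by
    have h1 : (U.card : ℝ) ≤ ∑ h ∈ Icc 1 ⌊L⌋₊, ((Bad h).card : ℝ) := by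
      exact_mod_cast Finset.card_biUnion_le
    have h2 : ∑ h ∈ Icc 1 ⌊L⌋₊, ((Bad h).card : ℝ) ≤
        ∑ h ∈ Icc 1 ⌊L⌋₊, C * K * (N : ℝ) ^ (-(3 * c / 4)) := by
      apply Finset.sum_le_sum
      intro h hh
      rw [Finset.mem_Icc] at hh
      exact hbadcard h hh.1 ((Nat.le_floor_iff (by linarith)).mp hh.2)
    rw [Finset.sum_const, Nat.card_Icc, Nat.add_sub_cancel, nsmul_eq_mul] at h2
    have h3 : (⌊L⌋₊ : ℝ) ≤ L := Nat.floor_le (by linarith)
    have hK0 : (0 : ℝ) ≤ K := Nat.cast_nonneg _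
    calc (U.card : ℝ) ≤ ⌊L⌋₊ * (C * K * (N : ℝ) ^ (-(3 * c / 4))) := h1.trans h2
      _ ≤ L * (C * K * (N : ℝ) ^ (-(3 * c / 4))) :=
        mul_le_mul_of_nonneg_right h3 (by positivity)
      _ = C * K * ((N : ℝ) ^ (c / 4) * (N : ℝ) ^ (-(3 * c / 4))) := by rw [hL]; ring
      _ = C * K * (N : ℝ) ^ (-(c / 2)) := by
        rw [← Real.rpow_add hN0]
        congr 2
        ring
      _ ≤ (N : ℝ) ^ (c / 32) * K * (N : ℝ) ^ (-(c / 2)) := by gcongr
      _ = K * ((N : ℝ) ^ (c / 32) * (N : ℝ) ^ (-(c / 2))) := by ring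
      _ = K * (N : ℝ) ^ (c / 32 + -(c / 2)) := by rw [← Real.rpow_add hN0]
      _ ≤ K * (N : ℝ) ^ (-(c / 32)) := by
        apply mul_le_mul_of_nonneg_left _ hK0
        exact Real.rpow_le_rpow_of_exponent_le hN1 (by linarith)
  refine le_trans ?_ hUcard
  apply Nat.cast_le.mpr
  rw [← Set.ncard_coe_finset U]
  apply Set.ncard_le_ncard _ (Finset.finite_toSet U)
  intro k hk
  obtain ⟨hk1, hkK, hk⟩ := hk
  by_contra hkU
  apply hk
  intro P hP α β hα hαβ hβ
  have hsum : ∀ h : ℕ, 1 ≤ h → (h : ℝ) ≤ L →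
      ‖∑ n ∈ S, e (h * ((k + θ) * ξ * Real.exp n + P.eval (n : ℝ)))‖ ≤ κ * N := by
    intro h h1 h2
    have h3 : k ∉ Bad h := by
      intro h4
      apply hkU
      rw [Finset.mem_coe, hU, Finset.mem_biUnion]
      exact ⟨h, Finset.mem_Icc.mpr ⟨h1, (Nat.le_floor_iff (by linarith)).mpr h2⟩, h4⟩
    have h5 : t h k ≤ κ * N := by
      by_contra h6
      apply h3
      rw [hBad, Finset.mem_filter]
      exact ⟨Finset.mem_Icc.mpr ⟨hk1, hkK⟩, not_le.mp h6⟩
    have h7 := htb h h1 h2 k (Polynomial.C (h : ℝ) * P) (by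
      refine (Polynomial.natDegree_C_mul_le _ _).trans hP)
    refine le_trans (le_of_eq ?_) (h7.trans h5)
    congr 1
    have h8 : ∑ n ∈ Icc 1 N, a n * e ((k + θ) * (h * ξ * Real.exp n) +
        (Polynomial.C (h : ℝ) * P).eval (n : ℝ)) =
        ∑ n ∈ Icc 1 N, if n ∈ S then e (h * ((k + θ) * ξ * Real.exp n + P.eval (n : ℝ)))
          else 0 := by
      refine Finset.sum_congr rfl (fun n _ => ?_)
      rw [ha]
      dsimp only
      split_ifs
      · rw [one_mul]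
        congr 1
        rw [Polynomial.eval_mul, Polynomial.eval_C]
        ring
      · rw [zero_mul]
    rw [h8, Finset.sum_ite_mem, Finset.inter_eq_right.mpr hS]
  have h9 := arc_count S (fun n => (k + θ) * ξ * Real.exp n + P.eval (n : ℝ)) N κ L hSN hκ0
    (by rw [hκL]) hsum α β hα hαβ hβ
  refine h9.trans ?_
  have h10 : Real.sqrt κ * N = (N : ℝ) ^ (1 - c / 16) := by
    rw [hκ, Real.sqrt_eq_rpow, ← Real.rpow_mul hN0.le]
    conv_lhs => rw [← Real.rpow_one (N : ℝ)]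
    rw [Real.rpow_one, ← Real.rpow_add_one hN0.ne']
    congr 1
    ring
  calc (2 + 2 * Z) * Real.sqrt κ * N = (2 + 2 * Z) * (Real.sqrt κ * N) := by ring
    _ ≤ (N : ℝ) ^ (c / 32) * (N : ℝ) ^ (1 - c / 16) := by
      rw [h10]
      exact mul_le_mul_of_nonneg_right hZN (by positivity)
    _ = (N : ℝ) ^ (1 - c / 32) := by
      rw [← Real.rpow_add hN0]
      congr 1
      ring

end Pool.Agent.Results.MP_9056e9_nt.AlmostAllMultiples
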