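import Mathlib
import Pool.Agent.Helper32.ExpN.Core
import Pool.Agent.Helper32.ExpN.Params

/-!
# The powers of `e` are not exponentially concentrated modulo one

For every real polynomial `P` and every real `ξ ≠ 0` the integers `n` for which `ξ e^n` is
exponentially near to `P(n)` modulo one are rare: their number up to `N` is `O(N^(1-c))`,
uniformly in `P` (of bounded degree) and in `ξ`. In particular for each `ε > 0` at most
`C N^(1-c)` integers `n ≤ N` have `‖e^n - θ‖ ≤ e^(-ε n)`, uniformly in the target `θ`.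
-/

namespace Pool.Agent.Results.MP_9056e9_nt.ExponentialAntiConcentration

open Pool.Agent.Helper32.ExpN Polynomial Filter
open scoped Nat

/-- The distance of a real number to the nearest integer. -/
noncomputable def distInt (x : ℝ) : ℝ := |x - round x|

/-- A window of length `N^γ` contains at most `d` exceptional integers. -/
theorem window_bound (r : ℕ) (A ε : ℝ) (hA : 0 ≤ A) (hε : 0 < ε) :
    ∃ d : ℕ, ∃ γ : ℝ, 0 < γ ∧ γ < 1 ∧ ∀ᶠ N : ℕ in atTop, ∀ ξ : ℝ,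
      Real.exp (-(ε / 2 * N)) ≤ |ξ| → |ξ| ≤ Real.exp (A * N) → ∀ P : ℝ[X], P.natDegree ≤ r →
      ∀ n : Fin (d + 1) → ℕ, StrictMono n → (∀ m, n m ≤ N) →
      (∀ m, n m ≤ n 0 + ⌊(N : ℝ) ^ γ⌋₊) →
      ¬ ∀ m, distInt (ξ * Real.exp (n m) - P.eval (n m : ℝ)) ≤ Real.exp (-(ε * N)) := by
  obtain ⟨d, hd, γ, hγ0, hγ1, hev⟩ := params r A ε hA hε
  refine ⟨d, γ, hγ0, hγ1, ?_⟩
  have hcast : Tendsto (fun N : ℕ => (N : ℝ)) atTop atTop := tendsto_natCast_atTop_atTop
  have ev1 : ∀ᶠ N : ℕ in atTop, Real.log ((r + 2)! : ℝ) / (ε / 2) < (N : ℝ) :=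
    hcast.eventually_gt_atTop _
  filter_upwards [hev, ev1, eventually_ge_atTop 1] with N hN h1 h2
  intro ξ hξ1 hξ2 P hP n hn hnN hnG hbad
  have hN1 : (1 : ℝ) ≤ N := by exact_mod_cast h2
  set G : ℕ := ⌊(N : ℝ) ^ γ⌋₊ with hG
  have hpow1 : (1 : ℝ) ≤ (N : ℝ) ^ γ := Real.one_le_rpow hN1 hγ0.le
  have hG1 : 1 ≤ G := by rw [hG, Nat.one_le_floor_iff]; exact hpow1
  obtain ⟨p, hp, hGp, Q, I, hQ1, hQ, hI, hI1, hfin⟩ := hN G hG1 (Nat.floor_le (by positivity))
  have hfac : (0 : ℝ) < ((r + 2)! : ℝ) := by exact_mod_cast Nat.factorial_pos _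
  refine window_core (d := d) (r := r) hd n hn G hG1 hnG p hp hGp ξ (Real.exp ((A + 1) * N))
    (Real.exp (-(ε * N))) P hP (Real.exp_pos _).le ?_ ?_ ?_ ?_
    (fun m => round (ξ * Real.exp (n m) - P.eval (n m : ℝ))) hbad Q I hQ1 hQ hI hI1 hfin
  · rw [← Real.exp_zero]
    apply Real.exp_le_exp.mpr
    have : 0 ≤ ε * N := by positivity
    linarith
  · refine lt_of_lt_of_le ?_ hξ1
    have e1 : ((r + 2)! : ℝ) < Real.exp (ε / 2 * N) := by
      rw [← Real.exp_log hfac]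
      apply Real.exp_lt_exp.mpr
      rw [div_lt_iff₀ (by positivity)] at h1
      linarith
    calc ((r + 2)! : ℝ) * Real.exp (-(ε * N))
        < Real.exp (ε / 2 * N) * Real.exp (-(ε * N)) :=
          mul_lt_mul_of_pos_right e1 (Real.exp_pos _)
      _ = Real.exp (-(ε / 2 * N)) := by
          rw [← Real.exp_add]
          congr 1
          ring
  · have h3 : (n 0 : ℝ) ≤ N := by exact_mod_cast hnN 0
    calc |ξ| * Real.exp (n 0) ≤ Real.exp (A * N) * Real.exp N :=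
          mul_le_mul hξ2 (Real.exp_le_exp.mpr h3) (by positivity) (by positivity)
      _ = Real.exp ((A + 1) * N) := by
          rw [← Real.exp_add]
          congr 1
          ring
  · apply Real.one_le_exp
    positivity

/-- The counting function of the exceptional integers for large `N`. -/
theorem count_bound (r : ℕ) (A ε : ℝ) (hA : 0 ≤ A) (hε : 0 < ε) :
    ∃ c C : ℝ, 0 < c ∧ c < 1 ∧ 0 < C ∧ ∀ᶠ N : ℕ in atTop, ∀ ξ : ℝ,
      Real.exp (-(ε / 2 * N)) ≤ |ξ| → |ξ| ≤ Real.exp (A * N) → ∀ P : ℝ[X], P.natDegree ≤ r →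
      ({n : ℕ | 1 ≤ n ∧ n ≤ N ∧ distInt (ξ * Real.exp n - P.eval (n : ℝ)) ≤
        Real.exp (-(ε * N))}.ncard : ℝ) ≤ C * (N : ℝ) ^ (1 - c) := by
  classical
  obtain ⟨d, γ, hγ0, hγ1, hev⟩ := window_bound r A ε hA hε
  refine ⟨γ, 3 * (d + 1), hγ0, hγ1, by positivity, ?_⟩
  filter_upwards [hev, eventually_ge_atTop 1] with N hN hN1
  intro ξ hξ1 hξ2 P hP
  have hN1' : (1 : ℝ) ≤ N := by exact_mod_cast hN1
  have hpow1 : (1 : ℝ) ≤ (N : ℝ) ^ γ := Real.one_le_rpow hN1' hγ0.le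
  set g : ℕ := ⌊(N : ℝ) ^ γ⌋₊ with hg
  have hg1 : 1 ≤ g := by rw [hg, Nat.one_le_floor_iff]; exact hpow1
  set S : Finset ℕ := (Finset.Icc 1 N).filter (fun n =>
    distInt (ξ * Real.exp n - P.eval (n : ℝ)) ≤ Real.exp (-(ε * N))) with hS
  have hset : {n : ℕ | 1 ≤ n ∧ n ≤ N ∧ distInt (ξ * Real.exp n - P.eval (n : ℝ)) ≤
        Real.exp (-(ε * N))} = (S : Set ℕ) := by
    ext n
    simp only [hS, Set.mem_ofPred_eq, Finset.coe_filter, Finset.mem_Icc]
    tauto
  rw [hset, Set.ncard_coe_finset]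
  have hfib : ∀ a ∈ S.image (fun n => n / g), (S.filter (fun n => n / g = a)).card ≤ d := by
    intro a _
    by_contra hcon
    push Not at hcon
    let e := Finset.orderEmbOfCardLe (S.filter (fun n => n / g = a)) (k := d + 1) hcon
    have hmem : ∀ m, e m ∈ S.filter (fun n => n / g = a) := fun m =>
      Finset.orderEmbOfCardLe_mem _ _ m
    have hmemS : ∀ m, e m ≤ N ∧ distInt (ξ * Real.exp (e m) - P.eval (e m : ℝ)) ≤
        Real.exp (-(ε * N)) := by
      intro m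
      have h1 := (Finset.mem_filter.mp (hmem m)).1
      simp only [hS, Finset.mem_filter, Finset.mem_Icc] at h1
      exact ⟨h1.1.2, h1.2⟩
    have hdiv : ∀ m, e m / g = a := fun m => (Finset.mem_filter.mp (hmem m)).2
    refine hN ξ hξ1 hξ2 P hP (fun m => e m) e.strictMono (fun m => (hmemS m).1) ?_
      (fun m => (hmemS m).2)
    intro m
    have h1 := hdiv m
    have h2 := hdiv 0
    have h3 : e m < g * a + g := by
      have := Nat.lt_mul_div_succ (e m) (show 0 < g by omega)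
      rw [h1] at this
      linarith
    have h4 : g * a ≤ e 0 := by
      have := Nat.mul_div_le (e 0) g
      rwa [h2] at this
    change e m ≤ e 0 + g
    omega
  have h1 := Finset.card_le_mul_card_image (s := S) (f := fun n => n / g) d hfib
  have h2 : (S.image (fun n => n / g)).card ≤ N / g + 1 := by
    rw [← Finset.card_range (N / g + 1)]
    apply Finset.card_le_card
    intro a ha
    rw [Finset.mem_image] at ha
    obtain ⟨n, hn, rfl⟩ := ha
    simp only [hS, Finset.mem_filter, Finset.mem_Icc] at hn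
    rw [Finset.mem_range]
    exact Nat.lt_succ_of_le (Nat.div_le_div_right hn.1.2)
  have h3 : (S.card : ℝ) ≤ d * ((N : ℝ) / g + 1) := by
    have h4 : S.card ≤ d * (N / g + 1) := h1.trans (Nat.mul_le_mul_left _ h2)
    calc (S.card : ℝ) ≤ ((d * (N / g + 1) : ℕ) : ℝ) := by exact_mod_cast h4
      _ = d * (((N / g : ℕ) : ℝ) + 1) := by push_cast; ring
      _ ≤ d * ((N : ℝ) / g + 1) := by
        apply mul_le_mul_of_nonneg_left _ (by positivity)
        have := @Nat.cast_div_le ℝ _ _ _ N g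
        linarith
  have hN0 : (0 : ℝ) < N := by linarith
  have h4 : (N : ℝ) ^ (1 - γ) = N / (N : ℝ) ^ γ := by
    rw [Real.rpow_sub hN0, Real.rpow_one]
  have h5 : (N : ℝ) ^ γ / 2 ≤ g := by
    have := Nat.lt_floor_add_one ((N : ℝ) ^ γ)
    rw [← hg] at this
    have hg1' : (1 : ℝ) ≤ g := by exact_mod_cast hg1
    linarith
  have h6 : (N : ℝ) / g ≤ 2 * (N : ℝ) ^ (1 - γ) := by
    rw [h4, div_le_iff₀ (by linarith)]
    calc (N : ℝ) = 2 * (N / (N : ℝ) ^ γ) * ((N : ℝ) ^ γ / 2) := by field_simp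
      _ ≤ 2 * (N / (N : ℝ) ^ γ) * g := mul_le_mul_of_nonneg_left h5 (by positivity)
  have h7 : 1 ≤ (N : ℝ) ^ (1 - γ) := Real.one_le_rpow hN1' (by linarith)
  have hd0 : (0 : ℝ) ≤ d := by positivity
  calc (S.card : ℝ) ≤ d * ((N : ℝ) / g + 1) := h3
    _ ≤ d * (3 * (N : ℝ) ^ (1 - γ)) := mul_le_mul_of_nonneg_left (by linarith) hd0
    _ ≤ 3 * (d + 1) * (N : ℝ) ^ (1 - γ) := by nlinarith

/-- The trivial bound. -/
theorem ncard_le (N : ℕ) (q : ℕ → Prop) : {n : ℕ | 1 ≤ n ∧ n ≤ N ∧ q n}.ncard ≤ N := by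
  have h1 : {n : ℕ | 1 ≤ n ∧ n ≤ N ∧ q n} ⊆ (Finset.Icc 1 N : Set ℕ) := by
    intro n hn
    simp only [Finset.coe_Icc, Set.mem_Icc]
    exact ⟨hn.1, hn.2.1⟩
  have h2 := Set.ncard_le_ncard h1 (Finset.finite_toSet _)
  rw [Set.ncard_coe_finset] at h2
  simpa using h2

theorem finite_set (N : ℕ) (q : ℕ → Prop) : {n : ℕ | 1 ≤ n ∧ n ≤ N ∧ q n}.Finite := by
  apply (Finset.finite_toSet (Finset.Icc 1 N)).subset
  intro n hn
  simp only [Finset.coe_Icc, Set.mem_Icc]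
  exact ⟨hn.1, hn.2.1⟩

/-- The uniform bound. -/
theorem part_one (r : ℕ) (A ε : ℝ) (hε : 0 < ε) :
    ∃ c C : ℝ, 0 < c ∧ c < 1 ∧ 0 < C ∧ ∀ N : ℕ, 1 ≤ N → ∀ ξ : ℝ,
      Real.exp (-(ε / 2 * N)) ≤ |ξ| → |ξ| ≤ Real.exp (A * N) → ∀ P : ℝ[X], P.natDegree ≤ r →
      ({n : ℕ | 1 ≤ n ∧ n ≤ N ∧ distInt (ξ * Real.exp n - P.eval (n : ℝ)) ≤
        Real.exp (-(ε * N))}.ncard : ℝ) ≤ C * (N : ℝ) ^ (1 - c) := by
  obtain ⟨c, C, hc0, hc1, hC, hev⟩ := count_bound r (max A 0) ε (le_max_right _ _) hε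
  obtain ⟨N0, hN0⟩ := eventually_atTop.mp hev
  refine ⟨c, max C (N0 : ℝ), hc0, hc1, lt_of_lt_of_le hC (le_max_left _ _), ?_⟩
  intro N hN ξ hξ1 hξ2 P hP
  have hN1 : (1 : ℝ) ≤ N := by exact_mod_cast hN
  have h1 : 1 ≤ (N : ℝ) ^ (1 - c) := Real.one_le_rpow hN1 (by linarith)
  by_cases h : N0 ≤ N
  · refine (hN0 N h ξ hξ1 (hξ2.trans ?_) P hP).trans ?_
    · apply Real.exp_le_exp.mpr
      exact mul_le_mul_of_nonneg_right (le_max_left _ _) (by linarith)
    · exact mul_le_mul_of_nonneg_right (le_max_left _ _) (by linarith)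
  · push Not at h
    have h2 : ({n : ℕ | 1 ≤ n ∧ n ≤ N ∧ distInt (ξ * Real.exp n - P.eval (n : ℝ)) ≤
        Real.exp (-(ε * N))}.ncard : ℝ) ≤ N := by
      exact_mod_cast ncard_le N _
    have h3 : (N : ℝ) ≤ N0 := by exact_mod_cast h.le
    calc _ ≤ (N : ℝ) := h2
      _ ≤ max C (N0 : ℝ) * 1 := by rw [mul_one]; exact h3.trans (le_max_right _ _)
      _ ≤ max C (N0 : ℝ) * (N : ℝ) ^ (1 - c) :=
        mul_le_mul_of_nonneg_left h1 (hC.le.trans (le_max_left _ _))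

/-- **Main result.** Let `r` be a natural number and `ε > 0`. There are `c > 0` and `C` such that
for all real `ξ ≠ 0`, all real polynomials `P` of degree at most `r` and all `N ≥ 1`, at most
`C (N^(1-c) + |log |ξ||)` integers `1 ≤ n ≤ N` have `‖ξ e^n - P(n)‖ ≤ e^(-εn)`. -/
theorem result (r : ℕ) (ε : ℝ) (hε : 0 < ε) :
    ∃ c C : ℝ, 0 < c ∧ ∀ ξ : ℝ, ξ ≠ 0 → ∀ P : ℝ[X], P.natDegree ≤ r → ∀ N : ℕ, 1 ≤ N →
      ({n : ℕ | 1 ≤ n ∧ n ≤ N ∧ distInt (ξ * Real.exp n - P.eval (n : ℝ)) ≤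
        Real.exp (-(ε * n))}.ncard : ℝ) ≤ C * ((N : ℝ) ^ (1 - c) + |Real.log (|ξ|)|) := by
  obtain ⟨c, C, hc0, hc1, hC, hmain⟩ := part_one r 1 (ε / 2) (by positivity)
  set q : ℝ := (2 : ℝ) ^ (-(1 - c)) with hq
  have hq1 : q < 1 := by
    rw [hq]
    exact Real.rpow_lt_one_of_one_lt_of_neg (by norm_num) (by linarith)
  have hq0 : 0 < q := by positivity
  set C' : ℝ := C / (1 - q) with hC'
  have hC'pos : 0 < C' := div_pos hC (by linarith)
  have hC'eq : C' * q + C = C' := by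
    rw [hC']
    have : 1 - q ≠ 0 := by linarith
    field_simp
    ring
  set κ : ℝ := max 1 (4 / ε) with hκ
  have hκ1 : 1 ≤ κ := le_max_left _ _
  have hκ2 : 1 ≤ κ * (ε / 4) := by
    calc (1 : ℝ) = 4 / ε * (ε / 4) := by field_simp
      _ ≤ κ * (ε / 4) := mul_le_mul_of_nonneg_right (le_max_right _ _) (by positivity)
  refine ⟨c, max C' κ, hc0, ?_⟩
  intro ξ hξ P hP
  have hξ0 : 0 < |ξ| := abs_pos.mpr hξ
  set lam : ℝ := |Real.log (|ξ|)| with hlam
  have hlam0 : 0 ≤ lam := abs_nonneg _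
  have hrange : ∀ M : ℕ, κ * lam ≤ M → Real.exp (-(ε / 2 / 2 * M)) ≤ |ξ| ∧
      |ξ| ≤ Real.exp (1 * M) := by
    intro M hM
    have h1 : lam ≤ M := by nlinarith
    have h2 : lam ≤ ε / 4 * M := by
      calc lam ≤ (κ * (ε / 4)) * lam := le_mul_of_one_le_left hlam0 hκ2
        _ = ε / 4 * (κ * lam) := by ring
        _ ≤ ε / 4 * M := mul_le_mul_of_nonneg_left hM (by positivity)
    constructor
    · rw [← Real.le_log_iff_exp_le hξ0]
      have := neg_abs_le (Real.log (|ξ|))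
      linarith
    · rw [← Real.log_le_iff_le_exp hξ0]
      have := le_abs_self (Real.log (|ξ|))
      linarith
  have key : ∀ N : ℕ, ({n : ℕ | 1 ≤ n ∧ n ≤ N ∧
      distInt (ξ * Real.exp n - P.eval (n : ℝ)) ≤ Real.exp (-(ε * n))}.ncard : ℝ) ≤
      C' * (N : ℝ) ^ (1 - c) + κ * lam := by
    intro N
    induction N using Nat.strong_induction_on with
    | _ N ih =>
      by_cases hN : (N : ℝ) < κ * lam
      · have h2 : ({n : ℕ | 1 ≤ n ∧ n ≤ N ∧ distInt (ξ * Real.exp n - P.eval (n : ℝ)) ≤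
            Real.exp (-(ε * n))}.ncard : ℝ) ≤ N := by
          exact_mod_cast ncard_le N _
        have h3 : 0 ≤ C' * (N : ℝ) ^ (1 - c) := by positivity
        linarith
      push Not at hN
      rcases Nat.eq_zero_or_pos N with h0 | hpos
      · subst h0
        have h2 := ncard_le 0 (fun n => distInt (ξ * Real.exp n - P.eval (n : ℝ)) ≤
          Real.exp (-(ε * n)))
        have h3 : {n : ℕ | 1 ≤ n ∧ n ≤ 0 ∧
          distInt (ξ * Real.exp n - P.eval (n : ℝ)) ≤ Real.exp (-(ε * n))}.ncard = 0 := by omega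
        rw [h3]
        simp only [Nat.cast_zero]
        positivity
      · have hsub : {n : ℕ | 1 ≤ n ∧ n ≤ N ∧
            distInt (ξ * Real.exp n - P.eval (n : ℝ)) ≤ Real.exp (-(ε * n))} ⊆
            {n : ℕ | 1 ≤ n ∧ n ≤ N / 2 ∧
            distInt (ξ * Real.exp n - P.eval (n : ℝ)) ≤ Real.exp (-(ε * n))} ∪
            {n : ℕ | 1 ≤ n ∧ n ≤ N ∧
            distInt (ξ * Real.exp n - P.eval (n : ℝ)) ≤ Real.exp (-(ε / 2 * N))} := by
          rintro n ⟨h1, h2, h3⟩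
          by_cases h4 : n ≤ N / 2
          · exact Or.inl ⟨h1, h4, h3⟩
          · refine Or.inr ⟨h1, h2, h3.trans ?_⟩
            apply Real.exp_le_exp.mpr
            have h5 : N ≤ 2 * n := by omega
            have h6 : (N : ℝ) ≤ 2 * n := by exact_mod_cast h5
            nlinarith
        have h1 := Set.ncard_le_ncard hsub ((finite_set _ _).union (finite_set _ _))
        have h2 := h1.trans (Set.ncard_union_le _ _)
        have h3 := ih (N / 2) (Nat.div_lt_self hpos (by norm_num))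
        have h4 := hmain N hpos ξ (hrange N hN).1 (hrange N hN).2 P hP
        have h5 : (((N / 2 : ℕ) : ℝ)) ^ (1 - c) ≤ q * (N : ℝ) ^ (1 - c) := by
          calc (((N / 2 : ℕ) : ℝ)) ^ (1 - c) ≤ ((N : ℝ) / 2) ^ (1 - c) := by
                apply Real.rpow_le_rpow (by positivity) _ (by linarith)
                have := @Nat.cast_div_le ℝ _ _ _ N 2
                simpa using this
            _ = q * (N : ℝ) ^ (1 - c) := by
                rw [hq, Real.div_rpow (by positivity) (by norm_num), Real.rpow_neg (by norm_num)]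
                ring
        have h6 : (({n : ℕ | 1 ≤ n ∧ n ≤ N ∧
            distInt (ξ * Real.exp n - P.eval (n : ℝ)) ≤ Real.exp (-(ε * n))}.ncard : ℕ) : ℝ) ≤
            (({n : ℕ | 1 ≤ n ∧ n ≤ N / 2 ∧
            distInt (ξ * Real.exp n - P.eval (n : ℝ)) ≤ Real.exp (-(ε * n))}.ncard : ℕ) : ℝ) +
            (({n : ℕ | 1 ≤ n ∧ n ≤ N ∧
            distInt (ξ * Real.exp n - P.eval (n : ℝ)) ≤ Real.exp (-(ε / 2 * N))}.ncard : ℕ) : ℝ) := by
          exact_mod_cast h2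
        calc _ ≤ _ := h6
          _ ≤ (C' * (((N / 2 : ℕ) : ℝ)) ^ (1 - c) + κ * lam) + C * (N : ℝ) ^ (1 - c) :=
            add_le_add h3 h4
          _ ≤ (C' * (q * (N : ℝ) ^ (1 - c)) + κ * lam) + C * (N : ℝ) ^ (1 - c) := by
              have := mul_le_mul_of_nonneg_left h5 hC'pos.le
              linarith
          _ = (C' * q + C) * (N : ℝ) ^ (1 - c) + κ * lam := by ring
          _ = C' * (N : ℝ) ^ (1 - c) + κ * lam := by rw [hC'eq]
  intro N _
  refine (key N).trans ?_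
  rw [mul_add]
  apply add_le_add
  · exact mul_le_mul_of_nonneg_right (le_max_left _ _) (by positivity)
  · exact mul_le_mul_of_nonneg_right (le_max_right _ _) hlam0

end Pool.Agent.Results.MP_9056e9_nt.ExponentialAntiConcentration
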