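import Mathlib
import Pool.Agent.Helper41.LD5.Main
import Pool.Agent.Helper95.LD.DiophExp
import Pool.Agent.Helper95.LD3.Gen
import Pool.Agent.Helper34.PM.Cor
import Pool.Agent.Helper34.PM.Main
import Pool.Agent.Helper56.LDX.AE
import Pool.Agent.Helper85.LD.AL
import Pool.Agent.Helper23.LD3.List
import Pool.Agent.Helper95.KX.Closure3

/-!
# Nearly optimal discrepancy of powers and of multiples of powers

For a real sequence `u` let `D_N(u)` be the supremum over `0 ≤ α ≤ β ≤ 1` of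
`|#{n < N : α ≤ {u n} < β} - N (β - α)|` (`N` times the discrepancy of the first `N` terms).

Let `O` be open and meet `(1, ∞)`, let `A > 0`, let `κ ≥ 1` be an integer.  Let `Θ` be a countable set of `θ > 1`, each with a
rational power `θ^d` (`d ≥ 1`) or with `|q θ^d - p| ≥ exp (-C (d + log q)^κ)` for all integers `d, q ≥ 1` and `p`,
`C = C(θ) > 0`.  Let `b, c : ℝ → ℝ` be functions, `c(y) = 0` whenever `y` has a rational power.

(1) The set of the `x ∈ O` such that `D_N(u) ≤ (log N)^(2 κ + 6)` for all large `N`, for each of the sequences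
`u_n = A x^(r n) + b(r n)` (`r > 0` rational) and each of the sequences `u_n = x θ^n + c(θ^n)` (`θ ∈ Θ`), has the Hausdorff
dimension `1`.

(2) `Θ` may be the set of all algebraic `θ > 1` (all integers `θ ≥ 2`, `3/2`, `√2`, …) and all `e^r`, `π^r` (`r > 0` rational), with
`κ = 3`, and the set of all algebraic `θ > 1` with `κ = 1`.  Almost all `θ > 1` satisfy the inequality with `κ = 1`, and all `α e^r, α π^r > 1` (`α ≠ 0` algebraic, `r ≠ 0` rational)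
with some `κ`.

Every real sequence has `D_N ≥ c log N` for infinitely many `N` (W. M. Schmidt).
-/

set_option autoImplicit false

namespace Pool.Agent.Results.MP_9056e9_nt.LowDiscrepancy

open Set MeasureTheory

/-- `N` times the discrepancy modulo one of `u 0, …, u (N - 1)` is at most `E`. -/
def DiscrepancyLe (u : ℕ → ℝ) (N : ℕ) (E : ℝ) : Prop :=
  ∀ α β : ℝ, 0 ≤ α → α ≤ β → β ≤ 1 →
    |(((Finset.range N).filter fun n : ℕ => α ≤ Int.fract (u n) ∧ Int.fract (u n) < β).card : ℝ) - N * (β - α)| ≤ E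

/-- `D_N(u) ≤ (log N)^e` for all large `N` -/
def Low (e : ℕ) (u : ℕ → ℝ) : Prop :=
  ∃ N₀ : ℕ, ∀ N ≥ N₀, DiscrepancyLe u N (Real.log N ^ e)

/-- `|q θ^d - p| ≥ exp (-C (d + log q)^κ)` for all integers `d, q ≥ 1` and `p`, with some `C > 0`. -/
def PowerMeasure (κ : ℕ) (θ : ℝ) : Prop :=
  ∃ C : ℝ, 0 < C ∧ ∀ d q : ℕ, 1 ≤ d → 1 ≤ q → ∀ p : ℤ,
    Real.exp (-(C * ((d : ℝ) + Real.log q) ^ κ)) ≤ |q * θ ^ d - p|

/-- some power `y^d`, `d ≥ 1`, is rational -/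
def RationalPower (y : ℝ) : Prop :=
  ∃ d : ℕ, 1 ≤ d ∧ ∃ ρ : ℚ, y ^ d = ρ

/-- the powers and the multiples at once -/
theorem together {O : Set ℝ} (hO : IsOpen O) (hne : (O ∩ Ioi 1).Nonempty) {κ : ℕ} (hκ : 1 ≤ κ) {Θ : Set ℝ} (hΘ : Θ.Countable)
    (h : ∀ θ ∈ Θ, 1 < θ ∧ (PowerMeasure κ θ ∨ RationalPower θ)) {A : ℝ} (hA : 0 < A) (b c : ℝ → ℝ)
    (hc : ∀ y, RationalPower y → c y = 0) :
    dimH {x : ℝ | x ∈ O ∧ (∀ r : ℚ, 0 < r → Low (2 * κ + 6) fun n => A * x ^ ((r : ℝ) * n) + b (r * n)) ∧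
      ∀ θ ∈ Θ, Low (2 * κ + 6) fun n => x * θ ^ n + c (θ ^ n)} = 1 := by
  -- one more base, so that the set is not empty
  have h2 : RationalPower 2 := ⟨1, le_rfl, 2, by norm_num⟩
  obtain ⟨f, hf⟩ := (hΘ.insert 2).exists_eq_range (insert_nonempty 2 Θ)
  have hf' : ∀ i, 1 < f i ∧ (PowerMeasure κ (f i) ∨ RationalPower (f i)) := by
    intro i
    have h3 : f i ∈ insert 2 Θ := by rw [hf]; exact mem_range_self i
    rcases h3 with h3 | h3
    · rw [h3]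
      exact ⟨by norm_num, Or.inr h2⟩
    · exact h _ h3
  have hQ : ({r : ℚ | 0 < r}).Countable := Set.to_countable _
  obtain ⟨q, hq⟩ := hQ.exists_eq_range ⟨1, by norm_num⟩
  have hq' : ∀ i, 0 < q i := fun i => by
    have h3 : q i ∈ {r : ℚ | 0 < r} := by rw [hq]; exact mem_range_self i
    exact h3
  have h3 := Pool.Agent.Helper41.LD5.main5 hκ hA (θ := f) hf' hc b (r := q) hq' hO hne
  refine le_antisymm (Pool.Agent.Helper41.LD2.dimH_le_one _) ?_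
  rw [← h3]
  refine dimH_mono ?_
  rintro x ⟨hx1, hx2, hx3⟩
  refine ⟨hx1, fun r hr => ?_, fun θ hθ => ?_⟩
  · have h4 : r ∈ {r : ℚ | 0 < r} := hr
    rw [hq] at h4
    obtain ⟨i, rfl⟩ := h4
    exact hx3 i
  · have h4 : θ ∈ insert 2 Θ := mem_insert_of_mem _ hθ
    rw [hf] at h4
    obtain ⟨i, rfl⟩ := h4
    exact hx2 i

/-- the set of all `e^r`, `π^r` (`r > 0` rational) and all algebraic `θ > 1` -/
def Bases : Set ℝ :=
  {θ | (∃ r : ℚ, 0 < r ∧ (θ = Real.exp r ∨ θ = Real.pi ^ (r : ℝ))) ∨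
    (1 < θ ∧ IsAlgebraic ℚ θ)}

theorem Bases_countable : Bases.Countable := by
  have h1 : Bases ⊆ (range fun r : ℚ => Real.exp r) ∪ (range fun r : ℚ => Real.pi ^ (r : ℝ)) ∪ {θ | IsAlgebraic ℚ θ} := by
    rintro θ (⟨r, -, h | h⟩ | ⟨-, h⟩)
    · exact Or.inl (Or.inl ⟨r, h.symm⟩)
    · exact Or.inl (Or.inr ⟨r, h.symm⟩)
    · exact Or.inr h
  exact (((countable_range _).union (countable_range _)).union (Algebraic.countable ℚ ℝ)).mono h1

theorem algebraic_good {θ : ℝ} (h1 : 1 < θ) (h2 : IsAlgebraic ℚ θ) : PowerMeasure 1 θ ∨ RationalPower θ := by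
  by_cases h3 : RationalPower θ
  · exact Or.inr h3
  · refine Or.inl (Pool.Agent.Helper85.LD.dioph_alg h1 h2 fun d hd => ?_)
    rintro ⟨ρ, hρ⟩
    exact h3 ⟨d, hd, ρ, hρ.symm⟩

theorem Bases_good : ∀ θ ∈ Bases, 1 < θ ∧ (PowerMeasure 3 θ ∨ RationalPower θ) := by
  rintro θ (⟨r, hr, h | h⟩ | ⟨h1, h2⟩)
  · have hr' : (0 : ℝ) < r := by exact_mod_cast hr
    have e : Real.exp r = Real.exp 1 ^ (r : ℝ) := by rw [← Real.exp_mul, one_mul]
    refine ⟨by rw [h]; exact Real.one_lt_exp_iff.2 hr', Or.inl ?_⟩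
    rw [h, e]
    exact Pool.Agent.Helper23.LD3.dioph_rat (fun h1 h2 h3 => Pool.Agent.Helper95.LD3.dioph_root h1 h2 h3)
      (Real.one_lt_exp_iff.2 one_pos) (by norm_num) Pool.Agent.Helper95.LD.dioph_exp hr
  · have hr' : (0 : ℝ) < r := by exact_mod_cast hr
    have hpi : 1 < Real.pi := by linarith [Real.pi_gt_three]
    refine ⟨by rw [h]; exact Real.one_lt_rpow hpi hr', Or.inl ?_⟩
    rw [h]
    exact Pool.Agent.Helper23.LD3.dioph_rat (fun h1 h2 h3 => Pool.Agent.Helper95.LD3.dioph_root h1 h2 h3)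
      hpi (by norm_num) Pool.Agent.Helper34.PM.dioph_pi hr
  · exact ⟨h1, (algebraic_good h1 h2).imp_left fun h3 => Pool.Agent.Helper23.LD3.dioph_mono (by norm_num) h3⟩

theorem meas_pi : Pool.Agent.Helper95.KX.SMeas Real.pi := by
  obtain ⟨A, C, hC, h⟩ := Pool.Agent.Helper34.PM.meas_pi
  exact fun k => ⟨A, C, hC, fun d H P hP hd _ hH => h d H P hP hd hH⟩

theorem result :
    (∀ (O : Set ℝ) (A : ℝ) (κ : ℕ) (Θ : Set ℝ) (b c : ℝ → ℝ), IsOpen O → (O ∩ Ioi 1).Nonempty → 0 < A → 1 ≤ κ → Θ.Countable →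
      (∀ θ ∈ Θ, 1 < θ ∧ (PowerMeasure κ θ ∨ RationalPower θ)) → (∀ y, RationalPower y → c y = 0) →
      dimH {x : ℝ | x ∈ O ∧ (∀ r : ℚ, 0 < r → Low (2 * κ + 6) fun n => A * x ^ ((r : ℝ) * n) + b (r * n)) ∧
        ∀ θ ∈ Θ, Low (2 * κ + 6) fun n => x * θ ^ n + c (θ ^ n)} = 1) ∧
    (Bases.Countable ∧ (∀ θ ∈ Bases, 1 < θ ∧ (PowerMeasure 3 θ ∨ RationalPower θ)) ∧
      (∀ θ : ℝ, 1 < θ → IsAlgebraic ℚ θ → PowerMeasure 1 θ ∨ RationalPower θ) ∧ (∀ᵐ θ : ℝ, 1 < θ → PowerMeasure 1 θ) ∧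
      ∀ (α : ℝ) (r : ℚ), IsAlgebraic ℤ α → α ≠ 0 → r ≠ 0 → ∀ θ : ℝ, θ = α * Real.exp r ∨ θ = α * Real.pi ^ (r : ℝ) → 1 < θ →
        ∃ κ : ℕ, 1 ≤ κ ∧ PowerMeasure κ θ) := by
  refine ⟨fun O A κ Θ b c hO hne hA hκ hΘ h hc => together hO hne hκ hΘ h hA b c hc, Bases_countable, Bases_good,
    fun θ h1 h2 => algebraic_good h1 h2, Pool.Agent.Helper56.LDX.dioph_ae, ?_⟩
  rintro α r hα h0 hr θ (h | h) h1
  · rw [h] at h1 ⊢
    exact Pool.Agent.Helper23.LD3.smeas_dioph h1 (Pool.Agent.Helper95.KX.smeas_exp hα h0 hr)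
  · rw [h] at h1 ⊢
    exact Pool.Agent.Helper23.LD3.smeas_dioph h1 (Pool.Agent.Helper95.KX.smeas_class Real.pi_pos
      meas_pi hα h0 hr)

end Pool.Agent.Results.MP_9056e9_nt.LowDiscrepancy
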